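import Pool.Agent.Run7.h35.NEG.Iface

/-!
# Piece SPARSE for helper35's project (`MP_6c92e3_an`)

Representations with sparse grid contents.
-/

set_option autoImplicit false

namespace Run7.h163.NEG.SPARSE

open Finset Run7.h35.NEG

/-- rounding towards `0` to the grid `4^{-a}ℤ` -/
theorem exists_round (a : ℕ) (x : ℝ) :
    ∃ y : ℝ, (∃ z : ℤ, y * 4 ^ a = z) ∧ |y| ≤ |x| ∧ |x - y| ≤ |x| ∧ |x - y| ≤ 1 / 4 ^ a := by
  have h4 : (0 : ℝ) < 4 ^ a := by positivity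
  -- the nonnegative case
  have key : ∀ x : ℝ, 0 ≤ x →
      ∃ y : ℝ, (∃ z : ℤ, y * 4 ^ a = z) ∧ |y| ≤ |x| ∧ |x - y| ≤ |x| ∧ |x - y| ≤ 1 / 4 ^ a := by
    intro x hx
    have hf0 : (0 : ℝ) ≤ (⌊x * 4 ^ a⌋ : ℝ) := by
      have : 0 ≤ ⌊x * 4 ^ a⌋ := Int.floor_nonneg.2 (by positivity)
      exact_mod_cast this
    have hf1 : (⌊x * 4 ^ a⌋ : ℝ) ≤ x * 4 ^ a := Int.floor_le _
    have hf2 : x * 4 ^ a < (⌊x * 4 ^ a⌋ : ℝ) + 1 := Int.lt_floor_add_one _
    have hy0 : 0 ≤ (⌊x * 4 ^ a⌋ : ℝ) / 4 ^ a := by positivity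
    have hy1 : (⌊x * 4 ^ a⌋ : ℝ) / 4 ^ a ≤ x := by
      rw [div_le_iff₀ h4]; exact hf1
    have hy2 : x - (⌊x * 4 ^ a⌋ : ℝ) / 4 ^ a ≤ 1 / 4 ^ a := by
      rw [sub_le_iff_le_add, ← add_div, le_div_iff₀ h4]
      linarith
    refine ⟨(⌊x * 4 ^ a⌋ : ℝ) / 4 ^ a, ⟨⌊x * 4 ^ a⌋, by field_simp⟩, ?_, ?_, ?_⟩
    · rw [abs_of_nonneg hy0, abs_of_nonneg hx]; exact hy1
    · rw [abs_of_nonneg (by linarith), abs_of_nonneg hx]; linarith
    · rw [abs_of_nonneg (by linarith)]; exact hy2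
  rcases le_total 0 x with hx | hx
  · exact key x hx
  · obtain ⟨y, ⟨z, hz⟩, h1, h2, h3⟩ := key (-x) (by linarith)
    refine ⟨-y, ⟨-z, by push_cast; rw [← hz]; ring⟩, ?_, ?_, ?_⟩
    · rw [abs_neg]; rwa [abs_neg] at h1
    · rw [show x - -y = -(-x - y) by ring, abs_neg]; rwa [abs_neg x] at h2
    · rw [show x - -y = -(-x - y) by ring, abs_neg]; exact h3

/-- rounding of the large numbers, the small ones are replaced by `0` -/
theorem exists_trunc (a : ℕ) (k : ℝ) (hk : 0 < k) (x : ℝ) :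
    ∃ y : ℝ, (∃ z : ℤ, y * 4 ^ a = z) ∧ |y| ≤ |x| ∧ |x - y| ≤ |x| ∧
      (x - y) ^ 2 ≤ |x| / k + (1 / 4 ^ a) ^ 2 ∧ (y ≠ 0 → 1 ≤ k * |x|) := by
  by_cases h : 1 ≤ k * |x|
  · obtain ⟨y, h1, h2, h3, h4⟩ := exists_round a x
    refine ⟨y, h1, h2, h3, ?_, fun _ => h⟩
    have h5 : (x - y) ^ 2 ≤ (1 / 4 ^ a : ℝ) ^ 2 := by
      rw [← sq_abs]
      exact pow_le_pow_left₀ (abs_nonneg _) h4 2
    have h6 : 0 ≤ |x| / k := by positivity
    linarith
  · refine ⟨0, ⟨0, by simp⟩, by simp, by simp, ?_, fun h0 => absurd rfl h0⟩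
    rw [not_le] at h
    rw [sub_zero]
    have h5 : x ^ 2 ≤ |x| / k := by
      rw [← sq_abs, le_div_iff₀ hk]
      have : |x| ^ 2 * k = |x| * (k * |x|) := by ring
      rw [this]
      calc |x| * (k * |x|) ≤ |x| * 1 := mul_le_mul_of_nonneg_left h.le (abs_nonneg _)
        _ = |x| := mul_one _
    have h6 : (0:ℝ) ≤ (1 / 4 ^ a) ^ 2 := by positivity
    linarith

/-- a matrix with almost orthonormal columns -/
theorem gram_le {n N : ℕ} (G : Fin n → Fin N → ℝ) (ε κ : ℝ) (hκ : 0 ≤ κ)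
    (hd : ∀ ν, ∑ b, G b ν ^ 2 ≤ 1 + ε)
    (ho : ∀ ν μ, ν ≠ μ → |∑ b, G b ν * G b μ| ≤ κ) (w : Fin N → ℝ) :
    ∑ b, (∑ ν, G b ν * w ν) ^ 2 ≤ (1 + ε) * ∑ ν, w ν ^ 2 + κ * (∑ ν, |w ν|) ^ 2 := by
  have e1 : ∑ b, (∑ ν, G b ν * w ν) ^ 2 =
      ∑ ν, ∑ μ, w ν * w μ * ∑ b, G b ν * G b μ := by
    calc ∑ b, (∑ ν, G b ν * w ν) ^ 2
        = ∑ b, ∑ ν, ∑ μ, (G b ν * w ν) * (G b μ * w μ) := by
          refine Finset.sum_congr rfl fun b _ => ?_
          rw [pow_two, Finset.sum_mul_sum]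
      _ = ∑ ν, ∑ μ, ∑ b, (G b ν * w ν) * (G b μ * w μ) := by
          rw [Finset.sum_comm]
          refine Finset.sum_congr rfl fun ν _ => ?_
          rw [Finset.sum_comm]
      _ = _ := by
          refine Finset.sum_congr rfl fun ν _ => Finset.sum_congr rfl fun μ _ => ?_
          rw [Finset.mul_sum]
          exact Finset.sum_congr rfl fun b _ => by ring
  have e2 : (1 + ε) * ∑ ν, w ν ^ 2 + κ * (∑ ν, |w ν|) ^ 2 =
      ∑ ν, ∑ μ, ((if ν = μ then (1 + ε) * w ν ^ 2 else 0) + κ * (|w ν| * |w μ|)) := by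
    have h1 : (∑ ν, |w ν|) ^ 2 = ∑ ν, ∑ μ, |w ν| * |w μ| := by
      rw [pow_two, Finset.sum_mul_sum]
    rw [h1, Finset.mul_sum, Finset.mul_sum, ← Finset.sum_add_distrib]
    refine Finset.sum_congr rfl fun ν _ => ?_
    rw [Finset.sum_add_distrib, Finset.mul_sum]
    simp
  rw [e1, e2]
  refine Finset.sum_le_sum fun ν _ => Finset.sum_le_sum fun μ _ => ?_
  by_cases h : ν = μ
  · subst h
    have h1 : w ν * w ν * ∑ b, G b ν * G b ν ≤ (1 + ε) * w ν ^ 2 := by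
      have h2 : ∑ b, G b ν * G b ν = ∑ b, G b ν ^ 2 :=
        Finset.sum_congr rfl fun b _ => by ring
      rw [h2]
      have h3 := mul_le_mul_of_nonneg_left (hd ν) (mul_self_nonneg (w ν))
      linarith [h3, show w ν * w ν * (1 + ε) = (1 + ε) * w ν ^ 2 by ring]
    have h4 : 0 ≤ κ * (|w ν| * |w ν|) := by positivity
    simp only [if_true]
    linarith
  · have h1 : w ν * w μ * ∑ b, G b ν * G b μ ≤ |w ν| * |w μ| * κ := by
      calc w ν * w μ * ∑ b, G b ν * G b μ ≤ |w ν * w μ * ∑ b, G b ν * G b μ| := le_abs_self _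
        _ = |w ν| * |w μ| * |∑ b, G b ν * G b μ| := by rw [abs_mul, abs_mul]
        _ ≤ _ := mul_le_mul_of_nonneg_left (ho ν μ h) (by positivity)
    simp only [if_neg h]
    linarith [h1, show |w ν| * |w μ| * κ = κ * (|w ν| * |w μ|) by ring]

/-- a sum of squares of sums -/
theorem sum_sq_range_le {N : ℕ} (s : ℕ) (M : ℝ) (p : ℕ → ℝ)
    (hp : ∀ j, |p j| ≤ M) (e : ℕ → Fin N → ℝ) :
    ∑ ν, (∑ s' ∈ range (s + 1), p s' * e s' ν) ^ 2 ≤
      (s + 1) * M ^ 2 * ∑ s' ∈ range (s + 1), ∑ ν, e s' ν ^ 2 := by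
  have h1 : ∀ ν, (∑ s' ∈ range (s + 1), p s' * e s' ν) ^ 2 ≤
      (s + 1) * M ^ 2 * ∑ s' ∈ range (s + 1), e s' ν ^ 2 := by
    intro ν
    have h2 := sq_sum_le_card_mul_sum_sq (s := range (s + 1)) (f := fun s' => p s' * e s' ν)
    rw [card_range] at h2
    refine h2.trans ?_
    push_cast
    rw [mul_assoc, Finset.mul_sum (range (s + 1)) _ (M ^ 2)]
    refine mul_le_mul_of_nonneg_left (Finset.sum_le_sum fun s' _ => ?_) (by positivity)
    rw [mul_pow]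
    refine mul_le_mul_of_nonneg_right ?_ (sq_nonneg _)
    rw [← sq_abs]
    exact pow_le_pow_left₀ (abs_nonneg _) (hp s') 2
  refine (Finset.sum_le_sum fun ν _ => h1 ν).trans ?_
  rw [← Finset.mul_sum, Finset.sum_comm]

/-- the `ℓ₁` norm of a sum -/
theorem sum_abs_range_le {N : ℕ} (s : ℕ) (M : ℝ) (p : ℕ → ℝ)
    (hp : ∀ j, |p j| ≤ M) (e : ℕ → Fin N → ℝ) :
    ∑ ν, |∑ s' ∈ range (s + 1), p s' * e s' ν| ≤
      M * ∑ s' ∈ range (s + 1), ∑ ν, |e s' ν| := by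
  have h1 : ∀ ν, |∑ s' ∈ range (s + 1), p s' * e s' ν| ≤
      M * ∑ s' ∈ range (s + 1), |e s' ν| := by
    intro ν
    refine (Finset.abs_sum_le_sum_abs _ _).trans ?_
    rw [Finset.mul_sum]
    refine Finset.sum_le_sum fun s' _ => ?_
    rw [abs_mul]
    exact mul_le_mul_of_nonneg_right (hp s') (abs_nonneg _)
  refine (Finset.sum_le_sum fun ν _ => h1 ν).trans ?_
  rw [← Finset.mul_sum, Finset.sum_comm]

/-- one level -/
theorem level (a k : ℕ) (ha : 1 ≤ a) (hk : a ≤ k) (H : ℝ) (hH : 1 ≤ H) (hHa : 4 * H ^ 2 ≤ a)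
    (v : Fin (2 ^ a) → ℝ) (hv : ∑ ν, |v ν| ≤ 2 * H * Real.sqrt k) :
    ∃ c : Fin (2 ^ a) → ℝ, (∀ ν, ∃ z : ℤ, c ν * 4 ^ a = z) ∧
      (univ.filter (fun ν => c ν ≠ 0)).card ≤ k ^ 2 ∧
      (∀ ν, |c ν| ≤ |v ν|) ∧ (∀ ν, |v ν - c ν| ≤ |v ν|) ∧
      ∑ ν, (v ν - c ν) ^ 2 ≤ 3 * H / Real.sqrt a := by
  have ha' : (1 : ℝ) ≤ a := by exact_mod_cast ha
  have hk' : (a : ℝ) ≤ k := by exact_mod_cast hk
  have hk0 : (0 : ℝ) < k := by linarith
  have hsa : 0 < Real.sqrt a := Real.sqrt_pos.2 (by linarith)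
  have hsk : 0 < Real.sqrt k := Real.sqrt_pos.2 hk0
  have hska : Real.sqrt a ≤ Real.sqrt k := Real.sqrt_le_sqrt hk'
  have hkk : Real.sqrt k * Real.sqrt k = k := Real.mul_self_sqrt hk0.le
  have haa : Real.sqrt a * Real.sqrt a = a := Real.mul_self_sqrt (by linarith)
  have hsa1 : 1 ≤ Real.sqrt a := by
    rw [← Real.sqrt_one]; exact Real.sqrt_le_sqrt ha'
  choose c h1 h2 h3 h4 h5 using fun ν => exists_trunc a k hk0 (v ν)
  refine ⟨c, h1, ?_, h2, h3, ?_⟩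
  · have h6 : ((univ.filter (fun ν => c ν ≠ 0)).card : ℝ) ≤ k * ∑ ν, |v ν| := by
      rw [Finset.mul_sum]
      calc ((univ.filter (fun ν => c ν ≠ 0)).card : ℝ)
          = ∑ ν ∈ univ.filter (fun ν => c ν ≠ 0), (1 : ℝ) := by simp
        _ ≤ ∑ ν ∈ univ.filter (fun ν => c ν ≠ 0), (k : ℝ) * |v ν| :=
            Finset.sum_le_sum fun ν hν => h5 ν (by simpa using hν)
        _ ≤ ∑ ν, (k : ℝ) * |v ν| :=
            Finset.sum_le_sum_of_subset_of_nonneg (Finset.filter_subset _ _)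
              fun ν _ _ => by positivity
    have h7 : 2 * H ≤ Real.sqrt k := by
      refine Real.le_sqrt_of_sq_le ?_
      nlinarith
    have h8 : ((univ.filter (fun ν => c ν ≠ 0)).card : ℝ) ≤ (k : ℝ) ^ 2 := by
      refine h6.trans ?_
      calc (k : ℝ) * ∑ ν, |v ν| ≤ k * (2 * H * Real.sqrt k) :=
            mul_le_mul_of_nonneg_left hv hk0.le
        _ ≤ k * (Real.sqrt k * Real.sqrt k) := by gcongr
        _ = (k : ℝ) ^ 2 := by rw [hkk]; ring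
    exact_mod_cast h8
  · calc ∑ ν, (v ν - c ν) ^ 2 ≤ ∑ ν, (|v ν| / k + (1 / 4 ^ a) ^ 2) :=
          Finset.sum_le_sum fun ν _ => h4 ν
      _ = (∑ ν, |v ν|) / k + 2 ^ a * (1 / 4 ^ a) ^ 2 := by
          rw [Finset.sum_add_distrib, ← Finset.sum_div]
          simp
      _ ≤ 2 * H / Real.sqrt a + H / Real.sqrt a := by
          have e1 : (∑ ν, |v ν|) / k ≤ 2 * H / Real.sqrt a := by
            rw [div_le_div_iff₀ hk0 hsa]
            calc (∑ ν, |v ν|) * Real.sqrt a ≤ (2 * H * Real.sqrt k) * Real.sqrt k := by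
                  gcongr
              _ = 2 * H * k := by rw [mul_assoc, hkk]
          have e2 : (2 : ℝ) ^ a * (1 / 4 ^ a) ^ 2 ≤ H / Real.sqrt a := by
            have e3 : (2 : ℝ) ^ a * (1 / 4 ^ a) ^ 2 = 1 / 8 ^ a := by
              rw [show (4 : ℝ) = 2 * 2 by norm_num, show (8 : ℝ) = 2 * 2 * 2 by norm_num,
                mul_pow, mul_pow, mul_pow]
              field_simp
            have e4 : (a : ℝ) ≤ 8 ^ a := by
              have : a < 8 ^ a := Nat.lt_pow_self (by norm_num)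
              exact_mod_cast this.le
            have e5 : Real.sqrt a ≤ 8 ^ a := by
              refine le_trans ?_ e4
              nlinarith
            rw [e3]
            calc (1 : ℝ) / 8 ^ a ≤ 1 / Real.sqrt a := one_div_le_one_div_of_le hsa e5
              _ ≤ H / Real.sqrt a := by gcongr
          linarith
      _ = 3 * H / Real.sqrt a := by ring

/-- the levels are increasing -/
theorem k_mono {T : Tower} {H ε C₀ : ℝ} {g Γ : ℕ} (hT : T.OK H ε C₀ g Γ) (hg : 4 ≤ g) {s' s : ℕ}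
    (h : s' ≤ s) (hs : s ≤ T.top) : T.k s' ≤ T.k s := by
  induction s, h using Nat.le_induction with
  | base => exact le_rfl
  | succ s hs' ih =>
    have h1 : s < T.top := by omega
    refine (ih (by omega)).trans ((?_ : T.k s ≤ T.n s ^ g).trans (hT.gap s h1))
    rw [hT.n_eq s h1, ← pow_mul]
    have hk : 1 ≤ T.k s := hT.one_le_a.trans (hT.k_ge s)
    calc T.k s = T.k s ^ 1 := (pow_one _).symm
      _ ≤ T.k s ^ (30 * g) := Nat.pow_le_pow_right hk (by omega)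

/-- the matrices of the tower are bounded -/
theorem G_le {T : Tower} {H₂ ε C₀ : ℝ} {g Γ : ℕ} (hT : T.OK H₂ ε C₀ g Γ) (hε : ε ≤ 1)
    (s : ℕ) (hs : s ≤ T.top) (w : Fin (2 ^ T.a) → ℝ) :
    ∑ b, (∑ ν, T.G s b ν * w ν) ^ 2 ≤
      2 * ∑ ν, w ν ^ 2 + 8 / (T.k s : ℝ) ^ 2 * (∑ ν, |w ν|) ^ 2 := by
  have hw : 0 ≤ ∑ ν, w ν ^ 2 := Finset.sum_nonneg fun ν _ => sq_nonneg _
  have hk : 1 ≤ T.k s := hT.one_le_a.trans (hT.k_ge s)
  have hk' : (1 : ℝ) ≤ T.k s := by exact_mod_cast hk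
  rcases hs.lt_or_eq with hs | hs
  · have h := hT.rm s hs
    have h1 := gram_le (T.G s) ε (8 * Real.sqrt ((T.a : ℝ) / T.n s)) (by positivity)
      (fun ν => by have := (abs_le.1 (h.diag ν)).2; linarith) h.off w
    have h2 : Real.sqrt ((T.a : ℝ) / T.n s) ≤ 1 / (T.k s : ℝ) ^ 2 := by
      refine Real.sqrt_le_iff.2 ⟨by positivity, ?_⟩
      rw [hT.n_eq s hs]
      push_cast
      have h3 : (T.a : ℝ) ≤ T.k s := by exact_mod_cast hT.k_ge s
      rw [div_pow, one_pow, ← pow_mul, div_le_div_iff₀ (by positivity) (by positivity)]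
      calc (T.a : ℝ) * (T.k s : ℝ) ^ (2 * 2) ≤ T.k s * (T.k s : ℝ) ^ (2 * 2) := by gcongr
        _ = (T.k s : ℝ) ^ 5 := by ring
        _ ≤ (T.k s : ℝ) ^ 30 := pow_le_pow_right₀ hk' (by norm_num)
        _ = 1 * (T.k s : ℝ) ^ 30 := (one_mul _).symm
    calc _ ≤ _ := h1
      _ ≤ 2 * ∑ ν, w ν ^ 2 + 8 * (1 / (T.k s : ℝ) ^ 2) * (∑ ν, |w ν|) ^ 2 := by
          gcongr
          linarith
      _ = _ := by ring
  · subst hs
    have h1 := gram_le (T.G T.top) 0 0 le_rfl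
      (fun ν => by
        have := hT.topG ν ν
        simp only [if_true] at this
        rw [← Finset.sum_congr rfl fun b _ => pow_two (T.G T.top b ν)] at this
        rw [this]; norm_num)
      (fun ν μ hνμ => by rw [hT.topG ν μ, if_neg hνμ]; simp) w
    have h2 : 0 ≤ 8 / (T.k T.top : ℝ) ^ 2 * (∑ ν, |w ν|) ^ 2 := by positivity
    linarith

theorem main : S_SPARSE := by
  intro K top H δ hH hδ
  set M : ℝ := ((K : ℝ) + 1) ^ top with hM
  set B : ℝ := ((top : ℝ) + 1) * M with hB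
  set R : ℝ := 152 * (top + 1) * B ^ 2 * H ^ 2 / δ with hR
  have hM1 : 1 ≤ M := one_le_pow₀ (by have : (0 : ℝ) ≤ K := Nat.cast_nonneg K
                                      linarith)
  have hM0 : 0 < M := by linarith
  have htop : (0 : ℝ) < (top : ℝ) + 1 := by positivity
  have hB0 : 0 < B := by positivity
  have hR0 : 0 < R := by positivity
  clear_value B R
  refine ⟨⌈R ^ 2 + 4 * H ^ 2⌉₊, ?_⟩
  intro H₂ ε C₀ g T hg hε0 hε1 hTK hTtop hT E _ _ X x hx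
  have ha1 : 1 ≤ T.a := hT.one_le_a
  have ha1' : (1 : ℝ) ≤ T.a := by exact_mod_cast ha1
  have haΓ : R ^ 2 + 4 * H ^ 2 ≤ T.a := by
    have h1 : (⌈R ^ 2 + 4 * H ^ 2⌉₊ : ℝ) ≤ T.a := by exact_mod_cast hT.base
    exact (Nat.le_ceil _).trans h1
  have haH : 4 * H ^ 2 ≤ T.a := by nlinarith [sq_nonneg R]
  have haR : R ≤ Real.sqrt T.a := Real.le_sqrt_of_sq_le (by nlinarith [sq_nonneg H])
  have hsa : 0 < Real.sqrt T.a := Real.sqrt_pos.2 (by linarith)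
  set δ' : ℝ := min 1 (δ / 4) with hδ'
  have hδ'0 : 0 < δ' := lt_min one_pos (by linarith)
  have hδ'1 : δ' ≤ 1 := min_le_left _ _
  have hδ'4 : δ' ≤ δ / 4 := min_le_right _ _
  obtain ⟨y, c, hyc, hcost⟩ := X.rep x δ' hδ'0
  have hx2 : ‖x‖ ^ 2 ≤ H ^ 2 := pow_le_pow_left₀ (norm_nonneg _) hx 2
  have hcost2 : T.cost y c ≤ 2 * H ^ 2 := by nlinarith
  -- the terms of the cost
  have hkpos : ∀ s, (1 : ℝ) ≤ T.k s := fun s => by exact_mod_cast ha1.trans (hT.k_ge s)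
  have hterm : ∀ s, 0 ≤ (∑ b, y s b ^ 2 + ∑ ν, c s ν ^ 2 + (∑ ν, |c s ν|) ^ 2 / (T.k s : ℝ)) := by
    intro s
    have := hkpos s
    positivity
  have hterm_le : ∀ s ≤ T.top, (∑ b, y s b ^ 2 + ∑ ν, c s ν ^ 2 +
      (∑ ν, |c s ν|) ^ 2 / (T.k s : ℝ)) ≤ 2 * H ^ 2 := by
    intro s hs
    refine le_trans ?_ hcost2
    unfold Tower.cost
    exact Finset.single_le_sum (f := fun s => (∑ b, y s b ^ 2 + ∑ ν, c s ν ^ 2 +
      (∑ ν, |c s ν|) ^ 2 / (T.k s : ℝ))) (fun s _ => hterm s) (by simp; omega)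
  have hc2 : ∀ s ≤ T.top, ∑ ν, c s ν ^ 2 ≤ 2 * H ^ 2 := by
    intro s hs
    have h1 := hterm_le s hs
    have h2 : 0 ≤ ∑ b, y s b ^ 2 := Finset.sum_nonneg fun b _ => sq_nonneg _
    have h3 : 0 ≤ (∑ ν, |c s ν|) ^ 2 / (T.k s : ℝ) := by
      have := hkpos s
      positivity
    linarith
  have hc1 : ∀ s ≤ T.top, ∑ ν, |c s ν| ≤ 2 * H * Real.sqrt (T.k s) := by
    intro s hs
    have h1 := hterm_le s hs
    have h2 : 0 ≤ ∑ b, y s b ^ 2 := Finset.sum_nonneg fun b _ => sq_nonneg _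
    have h3 : 0 ≤ ∑ ν, c s ν ^ 2 := Finset.sum_nonneg fun b _ => sq_nonneg _
    have hk := hkpos s
    have h4 : (∑ ν, |c s ν|) ^ 2 / (T.k s : ℝ) ≤ 2 * H ^ 2 := by linarith
    rw [div_le_iff₀ (by linarith)] at h4
    have h5 : (∑ ν, |c s ν|) ^ 2 ≤ (2 * H * Real.sqrt (T.k s)) ^ 2 := by
      rw [mul_pow, Real.sq_sqrt (by linarith)]
      nlinarith
    exact le_of_sq_le_sq h5 (by positivity)
  -- the new contents
  have hlev : ∀ s, ∃ c' : Fin (2 ^ T.a) → ℝ, (s ≤ T.top →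
      (∀ ν, ∃ z : ℤ, c' ν * 4 ^ T.a = z) ∧
      (univ.filter (fun ν => c' ν ≠ 0)).card ≤ T.k s ^ 2 ∧
      (∀ ν, |c' ν| ≤ |c s ν|) ∧ (∀ ν, |c s ν - c' ν| ≤ |c s ν|) ∧
      ∑ ν, (c s ν - c' ν) ^ 2 ≤ 3 * H / Real.sqrt T.a) ∧ (¬ s ≤ T.top → c' = 0) := by
    intro s
    by_cases hs : s ≤ T.top
    · obtain ⟨c', h⟩ := level T.a (T.k s) ha1 (hT.k_ge s) H hH haH (c s) (hc1 s hs)
      exact ⟨c', fun _ => h, fun h' => absurd hs h'⟩
    · exact ⟨0, fun h' => absurd h' hs, fun _ => rfl⟩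
  choose c' hc' hc'0 using hlev
  -- the new noise
  set w : ℕ → Fin (2 ^ T.a) → ℝ := fun s ν => T.acc c s ν - T.acc c' s ν with hw
  have hwe : ∀ s ν, w s ν = ∑ s' ∈ range (s + 1), (T.K : ℝ) ^ (s - s') * (c s' ν - c' s' ν) := by
    intro s ν
    simp only [hw, Tower.acc]
    rw [← Finset.sum_sub_distrib]
    exact Finset.sum_congr rfl fun s' _ => by ring
  have hGw : ∀ s ≤ T.top, ∑ b, (∑ ν, T.G s b ν * w s ν) ^ 2 ≤
      38 * B ^ 2 * H ^ 2 / Real.sqrt T.a := by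
    intro s hs
    have hpM : ∀ j, |(if j ≤ s then (T.K : ℝ) ^ (s - j) else 0)| ≤ M := by
      intro j
      split_ifs with hj
      · rw [abs_of_nonneg (by positivity), hTK]
        have hK0 : (0 : ℝ) ≤ K := Nat.cast_nonneg K
        calc (K : ℝ) ^ (s - j) ≤ ((K : ℝ) + 1) ^ (s - j) := by gcongr; linarith
          _ ≤ ((K : ℝ) + 1) ^ top :=
              pow_le_pow_right₀ (by linarith) (by omega)
      · rw [abs_zero]; exact hM0.le
    have hwp : ∀ ν, w s ν = ∑ s' ∈ range (s + 1),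
        (if s' ≤ s then (T.K : ℝ) ^ (s - s') else 0) * (c s' ν - c' s' ν) := by
      intro ν
      rw [hwe]
      refine Finset.sum_congr rfl fun s' hs' => ?_
      rw [if_pos (by simp at hs'; omega)]
    have hs1 : (s : ℝ) + 1 ≤ top + 1 := by
      have : (s : ℝ) ≤ top := by exact_mod_cast (hTtop ▸ hs)
      linarith
    have hw2 : ∑ ν, w s ν ^ 2 ≤ B ^ 2 * (3 * H / Real.sqrt T.a) := by
      have h1 := sum_sq_range_le s M (fun j => if j ≤ s then (T.K : ℝ) ^ (s - j) else 0) hpM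
        (fun s' ν => c s' ν - c' s' ν)
      have h2 : ∑ s' ∈ range (s + 1), ∑ ν, (c s' ν - c' s' ν) ^ 2 ≤
          ((s : ℝ) + 1) * (3 * H / Real.sqrt T.a) := by
        calc _ ≤ ∑ s' ∈ range (s + 1), (3 * H / Real.sqrt T.a) :=
              Finset.sum_le_sum fun s' hs' => (hc' s' (by simp at hs'; omega)).2.2.2.2
          _ = _ := by simp
      calc ∑ ν, w s ν ^ 2 = _ := Finset.sum_congr rfl fun ν _ => by rw [hwp ν]
        _ ≤ _ := h1
        _ ≤ (s + 1) * M ^ 2 * (((s : ℝ) + 1) * (3 * H / Real.sqrt T.a)) := by gcongr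
        _ = (((s : ℝ) + 1) * M) ^ 2 * (3 * H / Real.sqrt T.a) := by ring
        _ ≤ B ^ 2 * (3 * H / Real.sqrt T.a) := by
            rw [hB]; gcongr
    have hw1 : ∑ ν, |w s ν| ≤ B * (2 * H * Real.sqrt (T.k s)) := by
      have h1 := sum_abs_range_le s M (fun j => if j ≤ s then (T.K : ℝ) ^ (s - j) else 0) hpM
        (fun s' ν => c s' ν - c' s' ν)
      have h2 : ∑ s' ∈ range (s + 1), ∑ ν, |c s' ν - c' s' ν| ≤
          ((s : ℝ) + 1) * (2 * H * Real.sqrt (T.k s)) := by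
        calc _ ≤ ∑ s' ∈ range (s + 1), (2 * H * Real.sqrt (T.k s)) := by
              refine Finset.sum_le_sum fun s' hs' => ?_
              have hs'2 : s' ≤ s := by simp at hs'; omega
              calc ∑ ν, |c s' ν - c' s' ν| ≤ ∑ ν, |c s' ν| :=
                    Finset.sum_le_sum fun ν _ => (hc' s' (by omega)).2.2.2.1 ν
                _ ≤ 2 * H * Real.sqrt (T.k s') := hc1 s' (by omega)
                _ ≤ 2 * H * Real.sqrt (T.k s) := by
                    have : (T.k s' : ℝ) ≤ T.k s := by exact_mod_cast k_mono hT hg hs'2 hs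
                    gcongr
          _ = _ := by simp
      calc ∑ ν, |w s ν| = _ := Finset.sum_congr rfl fun ν _ => by rw [hwp ν]
        _ ≤ _ := h1
        _ ≤ M * (((s : ℝ) + 1) * (2 * H * Real.sqrt (T.k s))) := by gcongr
        _ = (((s : ℝ) + 1) * M) * (2 * H * Real.sqrt (T.k s)) := by ring
        _ ≤ B * (2 * H * Real.sqrt (T.k s)) := by rw [hB]; gcongr
    have hk := hkpos s
    have hka : (T.a : ℝ) ≤ T.k s := by exact_mod_cast hT.k_ge s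
    have hsa1 : Real.sqrt T.a ≤ T.a := by
      have h1 : 1 ≤ Real.sqrt T.a := by
        rw [← Real.sqrt_one]; exact Real.sqrt_le_sqrt ha1'
      nlinarith [Real.mul_self_sqrt (show (0 : ℝ) ≤ T.a by linarith)]
    have h8 : 8 / (T.k s : ℝ) ^ 2 * (∑ ν, |w s ν|) ^ 2 ≤ 32 * B ^ 2 * H ^ 2 / Real.sqrt T.a := by
      calc 8 / (T.k s : ℝ) ^ 2 * (∑ ν, |w s ν|) ^ 2
          ≤ 8 / (T.k s : ℝ) ^ 2 * (B * (2 * H * Real.sqrt (T.k s))) ^ 2 := by gcongr
        _ = 8 / (T.k s : ℝ) ^ 2 * (4 * B ^ 2 * H ^ 2 * Real.sqrt (T.k s) ^ 2) := by ring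
        _ = 32 * B ^ 2 * H ^ 2 / (T.k s : ℝ) := by
            have hk0 : (T.k s : ℝ) ≠ 0 := by linarith
            rw [Real.sq_sqrt (by linarith), div_mul_eq_mul_div, div_eq_div_iff (by positivity) hk0]
            ring
        _ ≤ _ := by
            gcongr
            linarith
    calc _ ≤ _ := G_le hT hε1 s hs (w s)
      _ ≤ 2 * (B ^ 2 * (3 * H / Real.sqrt T.a)) + 32 * B ^ 2 * H ^ 2 / Real.sqrt T.a := by
          linarith
      _ = (6 * B ^ 2 * H + 32 * B ^ 2 * H ^ 2) / Real.sqrt T.a := by ring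
      _ ≤ 38 * B ^ 2 * H ^ 2 / Real.sqrt T.a := by
          gcongr
          nlinarith [mul_le_mul_of_nonneg_left hH (show 0 ≤ B ^ 2 * H by positivity)]
  refine ⟨fun s b => y s b + ∑ ν, T.G s b ν * w s ν, c', ?_, ?_, ?_⟩
  · intro s hs b
    rw [hyc s hs b]
    simp only [Tower.ev, hw]
    have h1 : ∑ ν, T.G s b ν * (T.acc c s ν - T.acc c' s ν) =
        ∑ ν, T.G s b ν * T.acc c s ν - ∑ ν, T.G s b ν * T.acc c' s ν := by
      rw [← Finset.sum_sub_distrib]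
      exact Finset.sum_congr rfl fun ν _ => by ring
    rw [h1]
    ring
  · intro s
    by_cases hs : s ≤ T.top
    · obtain ⟨h1, h2, h3, h4, h5⟩ := hc' s hs
      refine ⟨h1, h2, ?_⟩
      calc ∑ ν, c' s ν ^ 2 ≤ ∑ ν, c s ν ^ 2 := by
            refine Finset.sum_le_sum fun ν _ => ?_
            rw [← sq_abs (c' s ν), ← sq_abs (c s ν)]
            exact pow_le_pow_left₀ (abs_nonneg _) (h3 ν) 2
        _ ≤ 2 * H ^ 2 := hc2 s hs
        _ ≤ (2 * H) ^ 2 := by nlinarith [sq_nonneg H]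
    · rw [hc'0 s hs]
      refine ⟨fun ν => ⟨0, by simp⟩, by simp, ?_⟩
      simp
      positivity
  · have h1 : T.cost (fun s b => y s b + ∑ ν, T.G s b ν * w s ν) c' ≤
        ∑ s ∈ range (T.top + 1), (2 * (∑ b, y s b ^ 2 + ∑ ν, c s ν ^ 2 +
          (∑ ν, |c s ν|) ^ 2 / (T.k s : ℝ)) + 2 * (38 * B ^ 2 * H ^ 2 / Real.sqrt T.a)) := by
      unfold Tower.cost
      refine Finset.sum_le_sum fun s hs => ?_
      have hs' : s ≤ T.top := by simp at hs; omega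
      obtain ⟨_, _, h3, _, _⟩ := hc' s hs'
      have e1 : ∑ b, (y s b + ∑ ν, T.G s b ν * w s ν) ^ 2 ≤
          2 * ∑ b, y s b ^ 2 + 2 * ∑ b, (∑ ν, T.G s b ν * w s ν) ^ 2 := by
        rw [Finset.mul_sum, Finset.mul_sum, ← Finset.sum_add_distrib]
        refine Finset.sum_le_sum fun b _ => ?_
        nlinarith [sq_nonneg (y s b - ∑ ν, T.G s b ν * w s ν)]
      have e2 : ∑ ν, c' s ν ^ 2 ≤ ∑ ν, c s ν ^ 2 := by
        refine Finset.sum_le_sum fun ν _ => ?_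
        rw [← sq_abs (c' s ν), ← sq_abs (c s ν)]
        exact pow_le_pow_left₀ (abs_nonneg _) (h3 ν) 2
      have e3 : (∑ ν, |c' s ν|) ^ 2 / (T.k s : ℝ) ≤ (∑ ν, |c s ν|) ^ 2 / (T.k s : ℝ) := by
        have hk := hkpos s
        have : ∑ ν, |c' s ν| ≤ ∑ ν, |c s ν| := Finset.sum_le_sum fun ν _ => h3 ν
        gcongr
      have e4 := hGw s hs'
      have e5 : 0 ≤ ∑ ν, c s ν ^ 2 := Finset.sum_nonneg fun ν _ => sq_nonneg _
      have e6 : 0 ≤ (∑ ν, |c s ν|) ^ 2 / (T.k s : ℝ) := by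
        have hk := hkpos s
        positivity
      linarith
    have h2 : ∑ s ∈ range (T.top + 1), (2 * (∑ b, y s b ^ 2 + ∑ ν, c s ν ^ 2 +
          (∑ ν, |c s ν|) ^ 2 / (T.k s : ℝ)) + 2 * (38 * B ^ 2 * H ^ 2 / Real.sqrt T.a)) =
        2 * T.cost y c + 76 * (top + 1) * B ^ 2 * H ^ 2 / Real.sqrt T.a := by
      rw [Finset.sum_add_distrib, ← Finset.mul_sum]
      unfold Tower.cost
      rw [Finset.sum_const, card_range, nsmul_eq_mul, hTtop]
      push_cast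
      ring
    have h3 : 76 * (top + 1) * B ^ 2 * H ^ 2 / Real.sqrt T.a ≤ δ / 2 := by
      rw [div_le_iff₀ hsa]
      calc 76 * ((top : ℝ) + 1) * B ^ 2 * H ^ 2 = δ / 2 * R := by
            rw [hR]; field_simp; ring
        _ ≤ δ / 2 * Real.sqrt T.a := by gcongr
    linarith

end Run7.h163.NEG.SPARSE
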